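import Pool.Agent.NCE.Closed

/-!
# Additive energy of convex sets: the exponent 214/87

helper53, problem MP_f03f67_co.
-/

set_option autoImplicit false

open Finset

namespace Pool.Agent.Results.MP_f03f67_co.EntropyExponent

open Classical in
/-- The additive energy `E(A)`: the number of `((x₁, x₂), (x₃, x₄))` in `A⁴` with
`x₁ + x₂ = x₃ + x₄`. -/
noncomputable def energy (A : Finset ℝ) : ℕ :=
  (((A ×ˢ A) ×ˢ (A ×ˢ A)).filter fun q => q.1.1 + q.1.2 = q.2.1 + q.2.2).card

/-- `a 0 < a 1 < ... < a (n - 1)`, and the gaps `a (i + 1) - a i` strictly increase. -/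
def IsConvexList (n : ℕ) (a : ℕ → ℝ) : Prop :=
  (∀ i, i + 1 < n → a i < a (i + 1)) ∧
    ∀ i, i + 2 < n → a (i + 1) - a i < a (i + 2) - a (i + 1)

open Classical in
theorem result (ε : ℝ) (hε : 0 < ε) :
    ∃ C : ℝ, 0 < C ∧ ∀ (n : ℕ) (a : ℕ → ℝ), IsConvexList n a →
      (energy ((range n).image a) : ℝ) ≤ C * (n : ℝ) ^ (214 / 87 + ε : ℝ) := by
  obtain ⟨K, hK, h⟩ := NCE.c_MAIN ε hε
  refine ⟨Real.exp K, Real.exp_pos K, ?_⟩
  intro n a hA
  rcases Nat.eq_zero_or_pos n with hn | hn
  · subst hn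
    have he : energy ((range 0).image a) = 0 := by
      simp [energy]
    rw [he, Nat.cast_zero]
    positivity
  · have h1 := h n a hn hA
    have e1 : energy ((range n).image a) = NCE.energy (NCE.cs n a) := by
      unfold energy NCE.energy NCE.cs
      congr!
    have hpos : 0 < (NCE.energy (NCE.cs n a) : ℝ) := by
      have : 0 < NCE.energy (NCE.cs n a) := by
        unfold NCE.energy NCE.cs
        apply Finset.card_pos.2
        exact ⟨((a 0, a 0), (a 0, a 0)), by
          simp only [mem_filter, mem_product, mem_image, mem_range]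
          exact ⟨⟨⟨⟨0, hn, rfl⟩, ⟨0, hn, rfl⟩⟩, ⟨⟨0, hn, rfl⟩, ⟨0, hn, rfl⟩⟩⟩, trivial⟩⟩
      exact_mod_cast this
    rw [e1]
    have hn' : (0 : ℝ) < n := by exact_mod_cast hn
    calc (NCE.energy (NCE.cs n a) : ℝ)
        = Real.exp (Real.log (NCE.energy (NCE.cs n a))) := (Real.exp_log hpos).symm
      _ ≤ Real.exp ((214 / 87 + ε) * Real.log n + K) := Real.exp_le_exp.2 h1
      _ = Real.exp K * (n : ℝ) ^ (214 / 87 + ε : ℝ) := by
          rw [Real.rpow_def_of_pos hn', Real.exp_add, mul_comm (Real.log n)]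
          ring

end Pool.Agent.Results.MP_f03f67_co.EntropyExponent
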