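import Pool.Agent.Lib_helper44.Cvx.Transfer

/-!
# Additive energy of almost all convex sets with gaps from a given set

helper44, problem MP_f03f67_co.
-/

set_option autoImplicit false

open Finset

namespace Pool.Agent.Results.MP_f03f67_co.GapDeletion

open Classical in
/-- The additive energy `E(A)`: the number of `((x₁, x₂), (x₃, x₄))` in `A⁴` with
`x₁ + x₂ = x₃ + x₄`. -/
noncomputable def energy (A : Finset ℝ) : ℕ :=
  (((A ×ˢ A) ×ˢ (A ×ˢ A)).filter fun q => q.1.1 + q.1.2 = q.2.1 + q.2.2).card

open Classical in
/-- The convex set with least element `0` whose set of gaps is `D`: it consists of `0` and, for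
every `t ∈ D`, of the sum of the elements of `D` that are at most `t`. -/
noncomputable def convexSet (D : Finset ℝ) : Finset ℝ :=
  insert 0 (D.image fun t => ∑ e ∈ D.filter (fun e => e ≤ t), e)

/-- `a 0 < a 1 < ⋯ < a n`, and the gaps `a (i + 1) - a i` strictly increase: the set
`{a 0, …, a n}` is convex. -/
def IsConvexList (n : ℕ) (a : ℕ → ℝ) : Prop :=
  (∀ i < n, a i < a (i + 1)) ∧ ∀ i, i + 1 < n → a (i + 1) - a i < a (i + 2) - a (i + 1)

/-- `convexSet D` has one element more than `D`. -/
lemma card_convexSet (D : Finset ℝ) (hD : ∀ x ∈ D, 0 < x) :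
    (convexSet D).card = D.card + 1 := by
  classical
  unfold convexSet
  rw [Finset.card_insert_of_notMem, Finset.card_image_of_injOn]
  · intro s hs t ht h
    have key : ∀ s ∈ D, ∀ t ∈ D, s < t →
        ∑ e ∈ D.filter (fun e => e ≤ s), e < ∑ e ∈ D.filter (fun e => e ≤ t), e := by
      intro s _ t ht hst
      apply Finset.sum_lt_sum_of_subset (i := t)
      · intro e he
        rw [Finset.mem_filter] at he ⊢
        exact ⟨he.1, he.2.trans hst.le⟩
      · exact Finset.mem_filter.2 ⟨ht, le_refl _⟩
      · intro h
        exact absurd (Finset.mem_filter.1 h).2 (not_le.2 hst)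
      · exact hD t ht
      · intro e he _
        exact (hD e (Finset.mem_filter.1 he).1).le
    rcases lt_trichotomy s t with hst | hst | hst
    · exact absurd h (key s hs t ht hst).ne
    · exact hst
    · exact absurd h (key t ht s hs hst).ne'
  · intro h
    rw [Finset.mem_image] at h
    obtain ⟨t, ht, h0⟩ := h
    have : t ≤ ∑ e ∈ D.filter (fun e => e ≤ t), e :=
      Finset.single_le_sum (f := fun e => e) (fun e he => (hD e (Finset.mem_filter.1 he).1).le)
        (Finset.mem_filter.2 ⟨ht, le_refl _⟩)
    have := hD t ht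
    linarith

lemma convexList_gaps {n : ℕ} {a : ℕ → ℝ} (h : IsConvexList n a) {i j : ℕ} (hij : i < j)
    (hj : j < n) : a (i + 1) - a i < a (j + 1) - a j := by
  induction j, hij using Nat.le_induction with
  | base => exact h.2 i (by omega)
  | succ j hij ih => exact (ih (by omega)).trans (h.2 j (by omega))

/-- Every convex set is a translate of `convexSet D`, where `D` is its set of gaps. -/
lemma convexList_eq {n : ℕ} {a : ℕ → ℝ} (h : IsConvexList n a) :
    ((range n).image fun i => a (i + 1) - a i).card = n ∧
    (∀ x ∈ (range n).image (fun i => a (i + 1) - a i), 0 < x) ∧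
    (range (n + 1)).image a
      = (convexSet ((range n).image fun i => a (i + 1) - a i)).image (fun x => a 0 + x) := by
  classical
  set d : ℕ → ℝ := fun i => a (i + 1) - a i with hd
  have hlt : ∀ i j, i < j → j < n → d i < d j := fun i j hij hj => convexList_gaps h hij hj
  have hle : ∀ i j, i < n → j < n → (d i ≤ d j ↔ i ≤ j) := by
    intro i j hi hj
    constructor
    · intro h1
      by_contra h2
      push Not at h2
      exact absurd (hlt j i h2 hi) (not_lt.2 h1)
    · intro h1
      rcases h1.lt_or_eq with h2 | rfl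
      · exact (hlt i j h2 hj).le
      · exact le_refl _
  have hinj : ∀ i ∈ range n, ∀ j ∈ range n, d i = d j → i = j := by
    intro i hi j hj hij
    rw [Finset.mem_range] at hi hj
    exact le_antisymm ((hle i j hi hj).1 hij.le) ((hle j i hj hi).1 hij.ge)
  have hsum : ∀ b < n, ∑ e ∈ ((range n).image d).filter (fun e => e ≤ d b), e = a (b + 1) - a 0 := by
    intro b hb
    have e1 : ((range n).image d).filter (fun e => e ≤ d b) = (range (b + 1)).image d := by
      ext x
      simp only [Finset.mem_filter, Finset.mem_image, Finset.mem_range]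
      constructor
      · rintro ⟨⟨i, hi, rfl⟩, hx⟩
        exact ⟨i, by have := (hle i b hi hb).1 hx; omega, rfl⟩
      · rintro ⟨i, hi, rfl⟩
        exact ⟨⟨i, by omega, rfl⟩, (hle i b (by omega) hb).2 (by omega)⟩
    rw [e1, Finset.sum_image]
    · exact Finset.sum_range_sub a (b + 1)
    · intro i hi j hj hij
      rw [Finset.mem_coe, Finset.mem_range] at hi hj
      exact hinj i (Finset.mem_range.2 (by omega)) j (Finset.mem_range.2 (by omega)) hij
  refine ⟨?_, ?_, ?_⟩
  · rw [Finset.card_image_of_injOn (fun i hi j hj hij => hinj i hi j hj hij), Finset.card_range]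
  · intro x hx
    rw [Finset.mem_image] at hx
    obtain ⟨i, hi, rfl⟩ := hx
    have := h.1 i (Finset.mem_range.1 hi)
    simp only [hd]
    linarith
  · ext x
    simp only [Finset.mem_image, Finset.mem_range, convexSet, Finset.mem_insert]
    constructor
    · rintro ⟨i, hi, rfl⟩
      rcases Nat.eq_zero_or_pos i with rfl | hi0
      · exact ⟨0, Or.inl rfl, by ring⟩
      · obtain ⟨b, rfl⟩ : ∃ b, i = b + 1 := ⟨i - 1, by omega⟩
        refine ⟨a (b + 1) - a 0, Or.inr ⟨d b, ⟨b, by omega, rfl⟩, hsum b (by omega)⟩, by ring⟩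
    · rintro ⟨y, hy, rfl⟩
      rcases hy with rfl | ⟨t, ⟨b, hb, rfl⟩, hy⟩
      · exact ⟨0, by omega, by ring⟩
      · rw [hsum b hb] at hy
        exact ⟨b + 1, by omega, by rw [← hy]; ring⟩

lemma average (G : Finset ℝ) (hG : ∀ x ∈ G, 0 < x) {n : ℕ} (hn : 1 ≤ n) (hnG : n < G.card) :
    ∑ D ∈ G.powersetCard n, (energy (convexSet D) : ℝ)
      ≤ 14464 * (n : ℝ) ^ 2 * (G.card / (G.card - n)) * (G.powersetCard n).card := by
  have h := Pool.Agent.H44.Cvx.average_bound G hG hn hnG
  rw [card_powersetCard]
  exact h

/-- **Average additive energy of the convex sets whose gaps are chosen from a given set.**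
For every finite set `G` of positive reals and `1 ≤ n < |G|`, the average of `E(A)` over the
convex sets `A` (with least element `0`) whose gaps are `n` of the elements of `G` is at most
`C n² |G| / (|G| - n)`, with an absolute constant `C`. -/
theorem result :
    ∃ C : ℝ, 0 < C ∧ ∀ G : Finset ℝ, (∀ x ∈ G, 0 < x) → ∀ n : ℕ, 1 ≤ n → n < G.card →
      (∑ D ∈ G.powersetCard n, (energy (convexSet D) : ℝ)) / (G.powersetCard n).card
        ≤ C * (n : ℝ) ^ 2 * (G.card / (G.card - n)) := by
  refine ⟨14464, by norm_num, ?_⟩
  intro G hG n hn hnG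
  have h := average G hG hn hnG
  have hN : (0 : ℝ) < (G.powersetCard n).card := by
    rw [card_powersetCard]
    have := Nat.choose_pos hnG.le
    exact_mod_cast this
  rw [div_le_iff₀ hN]
  exact h

end Pool.Agent.Results.MP_f03f67_co.GapDeletion
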