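import Pool.Agent.Lib_helper67.NQ.Cover

/-!
# MP_f03f67_co: additive energy of sets at bounded distance from quadratics

`result`: there is an absolute constant `C` such that

1. if `a_i` is within `D|α|` of `α i² + β i + γ` for `0 ≤ i < n`, then the number of quadruples
   of indices below `n` with `|a_i + a_j - a_k - a_l| ≤ D|α|` is at most `C n² (1 + log n + D)`;
2. a finite set covered by the values of `m` such sequences `a_j`, of lengths `n_j` and with
   `D = D_j`, has additive energy at most `C (∑ √n_j (1 + log n_j + D_j)^(1/4))⁴`;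
3. for `α ≥ 1`, `β ≥ 0` and every `γ` the integers `⌊α i² + β i + γ⌋`, `0 ≤ i < n`, form a convex
   set of energy at most `C n² (1 + log n)`.
-/

set_option autoImplicit false

namespace Pool.Agent.Results.MP_f03f67_co.NearQuadratic

open Finset
open Pool.Agent.Lib_helper67.NQ
open Pool.Agent.Lib_helper96.CvxPoly

/-- additive energy: the number of `((x₁, x₂), (x₃, x₄))` in `A⁴` with `x₁ + x₂ = x₃ + x₄` -/
noncomputable def energy (A : Finset ℝ) : ℕ :=
  (((A ×ˢ A) ×ˢ (A ×ˢ A)).filter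
    (fun q : (ℝ × ℝ) × (ℝ × ℝ) => q.1.1 + q.1.2 = q.2.1 + q.2.2)).card

/-- the number of quadruples `((i, j), (k, l))` of natural numbers below `n` with
`|a_i + a_j - a_k - a_l| ≤ δ` -/
noncomputable def nearQuadruples (n : ℕ) (a : ℕ → ℝ) (δ : ℝ) : ℕ :=
  (((range n ×ˢ range n) ×ˢ (range n ×ˢ range n)).filter
    (fun q : (ℕ × ℕ) × (ℕ × ℕ) => |a q.1.1 + a q.1.2 - a q.2.1 - a q.2.2| ≤ δ)).card

theorem energy_eq (A : Finset ℝ) : Finset.addEnergy A A = energy A := by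
  unfold energy
  rw [Finset.addEnergy_eq_card_filter]

theorem nearQuadruples_le (n : ℕ) (α β γ D : ℝ) (a : ℕ → ℝ) (hα : α ≠ 0) (hD : 0 ≤ D)
    (ha : ∀ i < n, |a i - (α * (i : ℝ) ^ 2 + β * i + γ)| ≤ D * |α|) :
    (nearQuadruples n a (D * |α|) : ℝ) ≤ 360 * n ^ 2 * (1 + Real.log n + D) := by
  unfold nearQuadruples
  apply near_quad n α β γ D hα hD a ha
  intro q hq
  obtain ⟨h1, h2⟩ := Finset.mem_filter.1 hq
  simp only [Finset.mem_product, Finset.mem_range] at h1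
  exact ⟨h1, h2⟩

theorem energy_image_le (n : ℕ) (α β γ D : ℝ) (a : ℕ → ℝ) (hα : α ≠ 0) (hD : 0 ≤ D)
    (ha : ∀ i < n, |a i - (α * (i : ℝ) ^ 2 + β * i + γ)| ≤ D * |α|) :
    (Finset.addEnergy ((range n).image a) ((range n).image a) : ℝ) ≤
      360 * n ^ 2 * (1 + Real.log n + D) := by
  have h1 : (Finset.addEnergy ((range n).image a) ((range n).image a) : ℝ) ≤
      ((quad a n).card : ℝ) := by exact_mod_cast energy_le_quad a n
  refine h1.trans (near_quad n α β γ D hα hD a ha _ ?_)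
  intro q hq
  obtain ⟨h2, h3⟩ := mem_quad.1 hq
  refine ⟨h2, ?_⟩
  have h4 : a q.1.1 + a q.1.2 - a q.2.1 - a q.2.2 = 0 := by linarith
  rw [h4, abs_zero]
  positivity

theorem cover_le (m : ℕ) (α β γ D : Fin m → ℝ) (n : Fin m → ℕ) (a : Fin m → ℕ → ℝ)
    (hα : ∀ j, α j ≠ 0) (hD : ∀ j, 0 ≤ D j)
    (ha : ∀ j, ∀ i < n j, |a j i - (α j * (i : ℝ) ^ 2 + β j * i + γ j)| ≤ D j * |α j|)
    (A : Finset ℝ) (hA : ∀ x ∈ A, ∃ j : Fin m, ∃ i : ℕ, i < n j ∧ x = a j i) :
    (energy A : ℝ) ≤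
      360 * (∑ j, Real.sqrt (n j) * (1 + Real.log (n j) + D j) ^ (1 / 4 : ℝ)) ^ 4 := by
  classical
  have h1 := energy_cover_sharp A (fun j => (range (n j)).image (a j)) (by
    intro x hx
    obtain ⟨j, i, hi, he⟩ := hA x hx
    exact ⟨j, Finset.mem_image.2 ⟨i, Finset.mem_range.2 hi, he.symm⟩⟩)
  rw [energy_eq] at h1
  refine h1.trans ?_
  have h2 : ∀ j : Fin m, Real.sqrt (Real.sqrt (Finset.addEnergy ((range (n j)).image (a j))
      ((range (n j)).image (a j)) : ℝ)) ≤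
      (360 : ℝ) ^ (1 / 4 : ℝ) * (Real.sqrt (n j) * (1 + Real.log (n j) + D j) ^ (1 / 4 : ℝ)) := by
    intro j
    have h3 := energy_image_le (n j) (α j) (β j) (γ j) (D j) (a j) (hα j) (hD j) (ha j)
    have h4 : 0 ≤ Real.log (n j) := Real.log_natCast_nonneg _
    have h5 : 0 ≤ 1 + Real.log (n j) + D j := by linarith [hD j]
    have h6 : Real.sqrt (Real.sqrt (Finset.addEnergy ((range (n j)).image (a j))
      ((range (n j)).image (a j)) : ℝ)) ≤
        Real.sqrt (Real.sqrt (360 * (n j) ^ 2 * (1 + Real.log (n j) + D j))) :=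
      Real.sqrt_le_sqrt (Real.sqrt_le_sqrt h3)
    refine h6.trans (le_of_eq ?_)
    rw [Real.sqrt_mul (by positivity), Real.sqrt_mul (by positivity),
      Real.sqrt_mul (by norm_num) ((n j : ℝ) ^ 2), Real.sqrt_sq (by positivity),
      Real.sqrt_mul (by positivity),
      Real.sqrt_eq_rpow (Real.sqrt 360), Real.sqrt_eq_rpow 360, ← Real.rpow_mul (by norm_num),
      Real.sqrt_eq_rpow (Real.sqrt (1 + Real.log (n j) + D j)),
      Real.sqrt_eq_rpow (1 + Real.log (n j) + D j), ← Real.rpow_mul h5]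
    norm_num
    ring
  have h3 : ∑ j, Real.sqrt (Real.sqrt (Finset.addEnergy ((range (n j)).image (a j))
      ((range (n j)).image (a j)) : ℝ)) ≤ (360 : ℝ) ^ (1 / 4 : ℝ) *
      ∑ j, (Real.sqrt (n j) * (1 + Real.log (n j) + D j) ^ (1 / 4 : ℝ)) := by
    rw [Finset.mul_sum]
    exact Finset.sum_le_sum fun j _ => h2 j
  refine (pow_le_pow_left₀ (Finset.sum_nonneg fun j _ => Real.sqrt_nonneg _) h3 4).trans
    (le_of_eq ?_)
  rw [mul_pow]
  congr 1
  rw [← Real.rpow_natCast, ← Real.rpow_mul (by norm_num)]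
  norm_num

/-- Additive energy of convex sets near quadratics. -/
theorem result : ∃ C : ℝ, 0 < C ∧
    (∀ (n : ℕ) (α β γ D : ℝ) (a : ℕ → ℝ), α ≠ 0 → 0 ≤ D →
      (∀ i < n, |a i - (α * (i : ℝ) ^ 2 + β * i + γ)| ≤ D * |α|) →
      (nearQuadruples n a (D * |α|) : ℝ) ≤ C * (n : ℝ) ^ 2 * (1 + Real.log n + D)) ∧
    (∀ (m : ℕ) (α β γ D : Fin m → ℝ) (n : Fin m → ℕ) (a : Fin m → ℕ → ℝ),
      (∀ j, α j ≠ 0) → (∀ j, 0 ≤ D j) →
      (∀ j, ∀ i < n j, |a j i - (α j * (i : ℝ) ^ 2 + β j * i + γ j)| ≤ D j * |α j|) →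
      ∀ A : Finset ℝ, (∀ x ∈ A, ∃ j : Fin m, ∃ i : ℕ, i < n j ∧ x = a j i) →
      (energy A : ℝ) ≤
        C * (∑ j, Real.sqrt (n j) * (1 + Real.log (n j) + D j) ^ (1 / 4 : ℝ)) ^ 4) ∧
    (∀ (α β γ : ℝ), 1 ≤ α → 0 ≤ β → ∀ a : ℕ → ℝ,
      (∀ i : ℕ, a i = ((⌊α * (i : ℝ) ^ 2 + β * i + γ⌋ : ℤ) : ℝ)) →
      (∀ i, a i < a (i + 1)) ∧ (∀ i, a (i + 1) - a i < a (i + 2) - a (i + 1)) ∧
      ∀ n : ℕ, (energy ((range n).image a) : ℝ) ≤ C * (n : ℝ) ^ 2 * (1 + Real.log n)) := by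
  refine ⟨720, by norm_num, ?_, ?_, ?_⟩
  · intro n α β γ D a hα hD ha
    have h1 := nearQuadruples_le n α β γ D a hα hD ha
    have h2 : 0 ≤ (n : ℝ) ^ 2 * (1 + Real.log n + D) := by
      have := Real.log_natCast_nonneg n
      positivity
    nlinarith
  · intro m α β γ D n a hα hD ha A hA
    have h1 := cover_le m α β γ D n a hα hD ha A hA
    have h2 : 0 ≤ (∑ j, Real.sqrt (n j) * (1 + Real.log (n j) + D j) ^ (1 / 4 : ℝ)) ^ 4 := by
      positivity
    linarith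
  · intro α β γ hα hβ a ha
    have hfl : ∀ i : ℕ, a i ≤ α * (i : ℝ) ^ 2 + β * i + γ ∧
        α * (i : ℝ) ^ 2 + β * i + γ < a i + 1 := by
      intro i
      rw [ha i]
      exact ⟨Int.floor_le _, Int.lt_floor_add_one _⟩
    have hint : ∀ i : ℕ, ∃ z : ℤ, a i = (z : ℝ) := fun i => ⟨_, ha i⟩
    refine ⟨?_, ?_, ?_⟩
    · intro i
      have h1 := hfl i
      have h2 := hfl (i + 1)
      obtain ⟨z1, hz1⟩ := hint i
      obtain ⟨z2, hz2⟩ := hint (i + 1)
      have hi : (0 : ℝ) ≤ i := by positivity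
      push_cast at h2
      nlinarith [mul_nonneg hi hi, mul_nonneg (by linarith : (0 : ℝ) ≤ α - 1) hi]
    · intro i
      have h1 := hfl i
      have h2 := hfl (i + 1)
      have h3 := hfl (i + 2)
      obtain ⟨z1, hz1⟩ := hint i
      obtain ⟨z2, hz2⟩ := hint (i + 1)
      obtain ⟨z3, hz3⟩ := hint (i + 2)
      push_cast at h2 h3
      have h4 : 0 < a (i + 2) - a (i + 1) - (a (i + 1) - a i) := by
        by_contra hcon
        push Not at hcon
        nlinarith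
      linarith
    · intro n
      have h1 := energy_image_le n α β γ 1 a (by linarith) (by norm_num) (by
        intro i _
        have h2 := hfl i
        rw [abs_of_pos (by linarith : 0 < α), abs_le]
        constructor <;> linarith [h2.1, h2.2])
      rw [energy_eq] at h1
      have h2 : 0 ≤ (n : ℝ) ^ 2 * Real.log n := by
        have := Real.log_natCast_nonneg n
        positivity
      nlinarith [h1, h2]

end Pool.Agent.Results.MP_f03f67_co.NearQuadratic
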