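import Pool.Agent.Lib_helper96.CvxPoly.Poly

/-!
# MP_f03f67_co: additive energy of sets covered by the values of few real polynomials

`result`: for every `d` and `ε > 0` there is a constant `C`, independent of all coefficients, such
that every finite set of reals covered by the values of `m` real polynomials `f_j` of degree at most
`d` at `0, 1, …, n_j - 1`, where `f_j` has degree at least `2` or `n_j ≤ 2`, has additive energy at
most `C m² (∑ n_j)^(2+ε)`.

`convex_splines`: consequence for convex sets which are polynomial on `m` blocks of consecutive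
indices.
-/

set_option autoImplicit false

namespace Pool.Agent.Results.MP_f03f67_co.PolynomialEnergy

open Finset
open Pool.Agent.Lib_helper96.CvxPoly

/-- additive energy: the number of `((x₁, x₂), (x₃, x₄))` in `A⁴` with `x₁ + x₂ = x₃ + x₄` -/
noncomputable def energy (A : Finset ℝ) : ℕ :=
  (((A ×ˢ A) ×ˢ (A ×ˢ A)).filter
    (fun q : (ℝ × ℝ) × (ℝ × ℝ) => q.1.1 + q.1.2 = q.2.1 + q.2.2)).card

/-- three consecutive values of a polynomial of degree at most one -/
theorem natDegree_ge_two_of_convex (p : Polynomial ℝ) (x : ℝ)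
    (h : p.eval (x + 1) - p.eval x < p.eval (x + 2) - p.eval (x + 1)) : 2 ≤ p.natDegree := by
  by_contra hcon
  have h1 : p.natDegree ≤ 1 := by omega
  have h2 := Polynomial.eq_X_add_C_of_natDegree_le_one h1
  rw [h2] at h
  simp only [Polynomial.eval_add, Polynomial.eval_mul, Polynomial.eval_C, Polynomial.eval_X] at h
  linarith

/-- any two values are values at `0` and `1` of a polynomial of degree two -/
theorem exists_quadratic (u v : ℝ) :
    ∃ q : Polynomial ℝ, q.natDegree = 2 ∧ q.eval 0 = u ∧ q.eval 1 = v := by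
  refine ⟨Polynomial.C 1 * Polynomial.X ^ 2 + Polynomial.C (v - u - 1) * Polynomial.X +
    Polynomial.C u, ?_, ?_, ?_⟩
  · exact Polynomial.natDegree_quadratic one_ne_zero
  · simp
  · simp

theorem result (d : ℕ) (ε : ℝ) (hε : 0 < ε) : ∃ C : ℝ, 0 < C ∧
    ∀ (m : ℕ) (f : Fin m → Polynomial ℝ) (n : Fin m → ℕ),
      (∀ j, (f j).natDegree ≤ d ∧ (2 ≤ (f j).natDegree ∨ n j ≤ 2)) →
      ∀ A : Finset ℝ, (∀ a ∈ A, ∃ j : Fin m, ∃ x : ℕ, x < n j ∧ a = (f j).eval (x : ℝ)) →
      (energy A : ℝ) ≤ C * (m : ℝ) ^ 2 * ((∑ j, n j : ℕ) : ℝ) ^ (2 + ε) := by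
  classical
  obtain ⟨C, hC, hP⟩ := energy_poly_cover (max d 2) ε hε
  refine ⟨C, hC, ?_⟩
  intro m f n hf A hA
  have hg : ∀ j : Fin m, ∃ g : Polynomial ℝ, 2 ≤ g.natDegree ∧ g.natDegree ≤ max d 2 ∧
      ∀ x < n j, g.eval (x : ℝ) = (f j).eval (x : ℝ) := by
    intro j
    rcases (hf j).2 with h | h
    · exact ⟨f j, h, (hf j).1.trans (le_max_left _ _), fun x _ => rfl⟩
    · obtain ⟨q, hq1, hq2, hq3⟩ := exists_quadratic ((f j).eval 0) ((f j).eval 1)
      refine ⟨q, hq1.ge, hq1.le.trans (le_max_right _ _), ?_⟩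
      intro x hx
      have hx2 : x < 2 := by omega
      interval_cases x
      · simpa using hq2
      · simpa using hq3
  choose g hg1 hg2 hg3 using hg
  have h1 := hP m g n (fun j => ⟨hg1 j, hg2 j⟩) A (by
    intro a ha
    obtain ⟨j, x, hx, he⟩ := hA a ha
    exact ⟨j, x, hx, (hg3 j x hx).trans he.symm⟩)
  have h2 : Finset.addEnergy A A = energy A := by
    unfold energy
    rw [Finset.addEnergy_eq_card_filter]
  rw [h2] at h1
  exact h1

/-- convex sequences which are polynomial on `m` blocks of consecutive indices -/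
theorem convex_splines (d : ℕ) (ε : ℝ) (hε : 0 < ε) : ∃ C : ℝ, 0 < C ∧
    ∀ (n m : ℕ) (a : ℕ → ℝ) (cut : ℕ → ℕ),
      (∀ i, i + 2 < n → a (i + 1) - a i < a (i + 2) - a (i + 1)) →
      cut 0 = 0 → cut m = n → (∀ j < m, cut j ≤ cut (j + 1)) →
      (∀ j < m, ∃ p : Polynomial ℝ, p.natDegree ≤ d ∧
        ∀ i, cut j ≤ i → i < cut (j + 1) → a i = p.eval (i : ℝ)) →
      (energy ((range n).image a) : ℝ) ≤ C * (m : ℝ) ^ 2 * (n : ℝ) ^ (2 + ε) := by
  classical
  obtain ⟨C, hC, key⟩ := result d ε hε
  refine ⟨C, hC, ?_⟩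
  intro n m a cut hconv h0 hm hmono hp
  -- monotonicity of the cuts
  have hcut : ∀ j, j ≤ m → cut j ≤ n := by
    intro j hj
    have h1 : ∀ k, j + k ≤ m → cut j ≤ cut (j + k) := by
      intro k
      induction k with
      | zero => intro _; exact le_rfl
      | succ k ih =>
        intro hk
        exact (ih (by omega)).trans (hmono (j + k) (by omega))
    have h2 := h1 (m - j) (by omega)
    rw [show j + (m - j) = m by omega, hm] at h2
    exact h2
  -- the polynomials of the pieces
  have hq : ∀ j : Fin m, ∃ q : Polynomial ℝ, (q.natDegree ≤ d ∧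
      (2 ≤ q.natDegree ∨ cut (j + 1) - cut j ≤ 2)) ∧
      ∀ x < cut (j + 1) - cut j, q.eval (x : ℝ) = a (cut j + x) := by
    intro j
    obtain ⟨p, hpd, hpe⟩ := hp j j.2
    refine ⟨p.comp (Polynomial.X + Polynomial.C ((cut j : ℕ) : ℝ)), ⟨?_, ?_⟩, ?_⟩
    · rw [Polynomial.natDegree_comp, Polynomial.natDegree_X_add_C, mul_one]
      exact hpd
    · by_cases hlen : 3 ≤ cut (j + 1) - cut j
      · left
        rw [Polynomial.natDegree_comp, Polynomial.natDegree_X_add_C, mul_one]
        apply natDegree_ge_two_of_convex p ((cut j : ℕ) : ℝ)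
        have e0 := hpe (cut j) le_rfl (by omega)
        have e1 := hpe (cut j + 1) (by omega) (by omega)
        have e2 := hpe (cut j + 2) (by omega) (by omega)
        have hc := hcut (j + 1) j.2
        have h3 := hconv (cut j) (by omega)
        rw [e0, e1, e2] at h3
        push_cast at h3
        exact h3
      · right
        omega
    · intro x hx
      rw [hpe (cut j + x) (by omega) (by omega), Polynomial.eval_comp, Polynomial.eval_add,
        Polynomial.eval_X, Polynomial.eval_C]
      push_cast
      rw [add_comm]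
  choose q hq1 hq2 using hq
  have hsum : (∑ j : Fin m, (cut (j + 1) - cut j)) = n := by
    rw [Fin.sum_univ_eq_sum_range (fun j => cut (j + 1) - cut j) m]
    have h1 : ∀ k ≤ m, ∑ j ∈ range k, (cut (j + 1) - cut j) = cut k := by
      intro k
      induction k with
      | zero => intro _; simp [h0]
      | succ k ih =>
        intro hk
        rw [Finset.sum_range_succ, ih (by omega)]
        have := hmono k (by omega)
        omega
    rw [h1 m le_rfl, hm]
  have h1 := key m q (fun j => cut (j + 1) - cut j) hq1 ((range n).image a) (by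
    intro z hz
    obtain ⟨i, hi, rfl⟩ := Finset.mem_image.1 hz
    have hi' := Finset.mem_range.1 hi
    -- the piece of the index
    have hex : ∃ j, j < m ∧ cut j ≤ i ∧ i < cut (j + 1) := by
      have h2 : ∀ k ≤ m, i < cut k → ∃ j, j < k ∧ cut j ≤ i ∧ i < cut (j + 1) := by
        intro k
        induction k with
        | zero => intro _ h; rw [h0] at h; omega
        | succ k ih =>
          intro hk h
          by_cases h3 : i < cut k
          · obtain ⟨j, hj1, hj2⟩ := ih (by omega) h3
            exact ⟨j, by omega, hj2⟩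
          · exact ⟨k, by omega, by omega, h⟩
      exact h2 m le_rfl (by rw [hm]; exact hi')
    obtain ⟨j, hj, hj1, hj2⟩ := hex
    refine ⟨⟨j, hj⟩, i - cut j, ?_, ?_⟩
    · change i - cut j < cut (j + 1) - cut j
      omega
    · rw [hq2 ⟨j, hj⟩ (i - cut j) (by
        change i - cut j < cut (j + 1) - cut j
        omega)]
      congr 1
      change i = cut j + (i - cut j)
      omega)
  rw [hsum] at h1
  exact h1

end Pool.Agent.Results.MP_f03f67_co.PolynomialEnergy
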